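import Pool.Agent.H97.HV.Targets3
import Pool.Agent.H54.CL.Law
import Pool.Agent.H33.HD.VD

/-!
# RBN. Functions which are regressive on small sets take few values (MP_e37c09_lc)
-/

open Ordinal Cardinal Order Set
open scoped ZFSet

universe u

namespace Pool.Agent.H78.HV

open _root_.HD HD.PRK HD.HV

theorem odp_cap {a x Q : ZFSet.{u}} (hQ : OD Q) (h : NF.ODp a x) :
    NF.ODp a (ZFSet.sep (fun z => z ∈ x) Q) := by
  obtain ⟨P, hP, h⟩ := Pool.Agent.H45.NF.ODp.def h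
  refine Pool.Agent.H45.NF.ODp.of_dz
    (Q := fun v => ∃ X, P (cons X fun _ => v 1) ∧ ∀ z, z ∈ v 0 ↔ (z ∈ Q ∧ z ∈ X))
    ?_ fun y => ?_
  · refine DZ.ex (R := fun X v => P (cons X fun _ => v 1) ∧
      ∀ z, z ∈ v 0 ↔ (z ∈ Q ∧ z ∈ X)) (DZ.and ?_ ?_)
    · refine (hP.ren fun n => if n = 0 then 0 else 2).congr fun v => ?_
      have : (cons (v 0) fun _ => v 2) = fun n => v (if n = 0 then 0 else 2) := by
        funext n
        rcases n with _ | n <;> simp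
      rw [← this]
    · refine DZ.all (R := fun z v => z ∈ v 1 ↔ (z ∈ Q ∧ z ∈ v 0)) ?_
      refine (DZ.mem 0 2).iff (DZ.and ?_ (DZ.mem 0 1))
      exact DZ.od (R := fun b v => v 0 ∈ b) hQ (DZ.mem 1 0)
  · show (∃ X, P (cons X fun _ => a) ∧ ∀ z, z ∈ y ↔ (z ∈ Q ∧ z ∈ X)) ↔ _
    constructor
    · rintro ⟨X, hX, hy⟩
      have hX' := (h X).1 hX
      subst hX'
      ext z
      rw [hy z, ZFSet.mem_sep]
    · rintro rfl
      exact ⟨x, (h x).2 rfl, fun z => ZFSet.mem_sep⟩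

/-- the relation `f x = i` for all parameters -/
noncomputable def Ri (β : Ordinal.{u}) (R : ZFSet.{u}) (i : Ordinal.{u}) : ZFSet.{u} :=
  ZFSet.sep (fun t => ∃ x a s r, t = ZFSet.pair x a ∧ s = ZFSet.pair x i.toZFSet ∧
    r = ZFSet.pair a s ∧ r ∈ R) (V_ β)

theorem od_Ri (β : Ordinal.{u}) {R : ZFSet.{u}} (hR : OD R) (i : Ordinal.{u}) :
    OD (Ri β R i) := by
  refine Pool.Agent.H45.NF.od_sep (NF.od_V β) ?_
  refine DZ.od (R := fun R v => ∃ x a s r, v 0 = ZFSet.pair x a ∧ s = ZFSet.pair x i.toZFSet ∧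
    r = ZFSet.pair a s ∧ r ∈ R) hR ?_
  refine DZ.od (R := fun i v => ∃ x a s r, v 1 = ZFSet.pair x a ∧ s = ZFSet.pair x i ∧
    r = ZFSet.pair a s ∧ r ∈ v 0) (OD.ordinal i) ?_
  refine DZ.ex (R := fun x v => ∃ a s r, v 2 = ZFSet.pair x a ∧ s = ZFSet.pair x (v 0) ∧
    r = ZFSet.pair a s ∧ r ∈ v 1) ?_
  refine DZ.ex (R := fun a v => ∃ s r, v 3 = ZFSet.pair (v 0) a ∧
    s = ZFSet.pair (v 0) (v 1) ∧ r = ZFSet.pair a s ∧ r ∈ v 2) ?_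
  refine DZ.ex (R := fun s v => ∃ r, v 4 = ZFSet.pair (v 1) (v 0) ∧
    s = ZFSet.pair (v 1) (v 2) ∧ r = ZFSet.pair (v 0) s ∧ r ∈ v 3) ?_
  refine DZ.ex (R := fun r v => v 5 = ZFSet.pair (v 2) (v 1) ∧
    v 0 = ZFSet.pair (v 2) (v 3) ∧ r = ZFSet.pair (v 1) (v 0) ∧ r ∈ v 4) ?_
  exact (loc_pair 6 3 2).dz.and ((loc_pair 1 3 4).dz.and ((loc_pair 0 2 1).dz.and (DZ.mem 0 5)))

theorem sms_sub {μ κ : Ordinal.{u}} {C : Set Ordinal.{u}} {x : ZFSet.{u}}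
    (hx : SmS μ κ C x) : x ⊆ κ.toZFSet := by
  intro z hz
  obtain ⟨a, h1, -, -, rfl⟩ := hx.mem z hz
  exact toZFSet_mem_toZFSet_iff.2 h1

theorem sms_cl {μ κ : Ordinal.{u}} {C C' : Set Ordinal.{u}} {x : ZFSet.{u}}
    (hx : SmS μ κ C x) (h : ∀ b ∈ C, b.toZFSet ∈ x → b ∈ C') : SmS μ κ C' x :=
  ⟨hx.ne, fun z hz => by
    obtain ⟨a, h1, h2, h3, h4⟩ := hx.mem z hz
    exact ⟨a, h1, h a h2 (h4 ▸ hz), h3, h4⟩, hx.few⟩

theorem pf_RBN (h0 : T_PVA.{u}) (h1 : T_FPT.{u}) (h2 : T_UNI.{u}) : T_RBN.{u} := by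
  intro δ hδ hA K hK hδK γ hγ μ hμ hωμ f hf hfun
  classical
  obtain ⟨F, τ, hF, hτ, hGd, hF2⟩ := h1 δ hδ hA K hK hδK γ hγ μ hμ hωμ
  obtain ⟨a, ha, hax⟩ := hf
  have hK0 : ℵ₀ < K := by
    have h3 : ω < K.ord := (hωμ.trans_lt hμ).trans hδK
    rw [← Cardinal.ord_aleph0] at h3
    exact Cardinal.ord_lt_ord.1 h3
  have hl : succ a.rank < γ := hγ.lim.succ_lt (ZFSet.mem_vonNeumann.1 ha)
  have hal : a ∈ V_ (succ a.rank) := ZFSet.mem_vonNeumann.2 (lt_succ _)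
  set β : Ordinal.{u} := K.ord + ω + ω with hβd
  have hω0 : (0 : Ordinal.{u}) < ω := Ordinal.omega0_pos
  have hβ : Gd β := by
    refine ⟨Ordinal.isSuccLimit_add _ Ordinal.isSuccLimit_omega0, ?_⟩
    calc (ω : Ordinal.{u}) ≤ K.ord + ω := le_add_self
      _ < K.ord + ω + ω := lt_add_of_pos_right _ hω0
  have hKβ : K.ord < β := (lt_add_of_pos_right _ hω0).trans_le le_self_add
  have haβ : a ∈ V_ β := by
    rw [ZFSet.mem_vonNeumann]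
    exact ((lt_succ a.rank).trans hl).trans_le hγ.le |>.trans hKβ
  obtain ⟨R, hR, hRs, hRx⟩ := h2.1 (succ a.rank) (V_ β) a (ZFSet.sep (fun z => z ∈ f) (V_ β))
    (NF.od_V β) hal (odp_cap (NF.od_V β) hax) (fun z hz => (ZFSet.mem_sep.1 hz).1)
  have hC : ∀ i < K.ord, ∃ C, Clb K.ord C ∧ ∀ x y, SmS μ K.ord C x → SmS μ K.ord C y →
      AgV F x y τ → ZFSet.pair x i.toZFSet ∈ f → ZFSet.pair y i.toZFSet ∈ f := by
    intro i hi
    obtain ⟨C, hC, hCx⟩ := hF2 (succ a.rank) hl (Ri β R i) (od_Ri β hR i) (fun x a' hxa => by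
      obtain ⟨-, x', a'', s, r, e1, e2, e3, e4⟩ := ZFSet.mem_sep.1 hxa
      obtain ⟨rfl, rfl⟩ := ZFSet.pair_injective e1
      rw [e3] at e4
      exact (ZFSet.pair_mem_prod.1 (hRs e4)).1)
    refine ⟨C, hC, fun x y hx hy hxy hxi => ?_⟩
    have hxV : x ∈ V_ β := mem_V_of_sub (sms_sub hx) (Gd.ord.2 hKβ)
    have hiV : i.toZFSet ∈ V_ β := Gd.ord.2 (hi.trans hKβ)
    have h3 : ZFSet.pair x a ∈ Ri β R i := by
      refine ZFSet.mem_sep.2 ⟨hβ.pair hxV haβ, x, a, _, _, rfl, rfl, rfl, ?_⟩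
      exact (hRx _).2 (ZFSet.mem_sep.2 ⟨hβ.pair hxV hiV, hxi⟩)
    have h4 := (hCx x y hx hy hxy a).1 h3
    obtain ⟨-, x', a'', s, r, e1, e2, e3, e4⟩ := ZFSet.mem_sep.1 h4
    obtain ⟨rfl, rfl⟩ := ZFSet.pair_injective e1
    rw [e3] at e4
    have h5 := (ZFSet.mem_sep.1 ((hRx _).1 e4)).2
    rw [e2] at h5
    exact h5
  choose! Cc hCc1 hCc2 using hC
  have hD := Pool.Agent.H33.HD.VD.diag hK hK0 Cc hCc1
  obtain ⟨τ', hτ', g, -, hnp⟩ := hGd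
  unfold PosX at hnp
  push Not at hnp
  obtain ⟨C1, hC1, hC1x⟩ := hnp
  refine ⟨C1 ∩ {x | 0 < x ∧ ∀ a < x, x ∈ Cc a}, Pool.Agent.H54.CL.clb_inter hK0 hK hC1 hD, ?_⟩
  -- the value of a class
  have key : ∀ j, ∃ e : Ordinal.{u}, ∀ (i : Ordinal.{u}) (x : ZFSet.{u}),
      SmS μ K.ord (C1 ∩ {x | 0 < x ∧ ∀ a < x, x ∈ Cc a}) x → ZFSet.pair x i.toZFSet ∈ f →
      (∀ b : Ordinal.{u}, b.toZFSet ∈ x → i < b) → AgV F x (g j) τ → e = i := by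
    intro j
    by_cases h : ∃ (i : Ordinal.{u}) (x : ZFSet.{u}),
      SmS μ K.ord (C1 ∩ {x | 0 < x ∧ ∀ a < x, x ∈ Cc a}) x ∧ ZFSet.pair x i.toZFSet ∈ f ∧
      (∀ b : Ordinal.{u}, b.toZFSet ∈ x → i < b) ∧ AgV F x (g j) τ
    · obtain ⟨i0, x0, hx0, hi0, hb0, hg0⟩ := h
      refine ⟨i0, fun i x hx hi hb hg => ?_⟩
      have hlt : ∀ (i : Ordinal.{u}) (x : ZFSet.{u}),
          SmS μ K.ord (C1 ∩ {x | 0 < x ∧ ∀ a < x, x ∈ Cc a}) x →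
          (∀ b : Ordinal.{u}, b.toZFSet ∈ x → i < b) → i < K.ord := by
        intro i x hx hb
        obtain ⟨z, hz⟩ := hx.ne
        obtain ⟨b, hbK, -, -, rfl⟩ := hx.mem z hz
        exact (hb b hz).trans hbK
      rcases le_total i0 i with hle | hle
      · have hi0K := hlt i0 x0 hx0 hb0
        have s0 : SmS μ K.ord (Cc i0) x0 := sms_cl hx0 fun b hb hbx => hb.2.2 i0 (hb0 b hbx)
        have s1 : SmS μ K.ord (Cc i0) x :=
          sms_cl hx fun b hb' hbx => hb'.2.2 i0 (hle.trans_lt (hb b hbx))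
        have h3 := hCc2 i0 hi0K x0 x s0 s1 (fun k hk c => (hg0 k hk c).trans (hg k hk c).symm) hi0
        exact toZFSet_injective (hfun _ _ _ h3 hi)
      · have hiK := hlt i x hx hb
        have s0 : SmS μ K.ord (Cc i) x0 :=
          sms_cl hx0 fun b hb' hbx => hb'.2.2 i (hle.trans_lt (hb0 b hbx))
        have s1 : SmS μ K.ord (Cc i) x := sms_cl hx fun b hb' hbx => hb'.2.2 i (hb b hbx)
        have h3 := hCc2 i hiK x x0 s1 s0 (fun k hk c => (hg k hk c).trans (hg0 k hk c).symm) hi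
        exact toZFSet_injective (hfun _ _ _ hi0 h3)
    · push Not at h
      exact ⟨0, fun i x hx hi hb hg => absurd hg (h i x hx hi hb)⟩
  choose e he using key
  refine ⟨τ', hτ', e, fun i hi => ?_⟩
  obtain ⟨x, hx, hxi, hb⟩ := hi
  obtain ⟨j, hj, hag⟩ := hC1x x (sms_cl hx fun b hb' _ => hb'.1)
  exact ⟨j, hj, he j i x hx hxi hb hag⟩

end Pool.Agent.H78.HV
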