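import Pool.Agent.H97.HV.Targets
import Pool.Agent.H45.NF.CL
import Pool.Agent.H33.HD.VD

/-!
# WSZ. The number of the elements of `Wz γ l` (MP_e37c09_lc)
-/

open Ordinal Cardinal Order Set
open scoped ZFSet

universe u

namespace Pool.Agent.H78.HV

open _root_.HD HD.PRK HD.HV

theorem nv_pv {γ : Ordinal.{u}} {x : ZFSet.{u}} (h : NV γ x) : PV γ x := by
  unfold NV at h
  exact h.self

/-- a union of fewer than `κ` sets with fewer than `κ` elements -/
theorem union {K : Cardinal.{u}} (hK : K.IsRegular) {l : Ordinal.{u}} (hl : l < K.ord)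
    {Z : ZFSet.{u}} {ν : Ordinal.{u} → Cardinal.{u}} (hν : ∀ i < l, ν i < K)
    {e : Ordinal.{u} → Ordinal.{u} → ZFSet.{u}}
    (he : ∀ x ∈ Z, ∃ i < l, ∃ j < (ν i).ord, x = e i j) : ∃ μ < K, NF.Sz μ Z := by
  have h1 : l.card < K.ord.cof := by
    rw [hK.cof_ord]
    exact Cardinal.lt_ord.1 hl
  obtain ⟨σ, hσ, h2⟩ := Pool.Agent.H33.HD.VD.sup_lt h1 (f := fun i => (ν i).ord)
    fun i hi => Cardinal.ord_lt_ord.2 (hν i hi)
  refine ⟨l.card * σ.card, Cardinal.mul_lt_of_lt hK.aleph0_le (Cardinal.lt_ord.1 hl)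
    (Cardinal.lt_ord.1 hσ), ?_⟩
  rw [Pool.Agent.H45.NF.sz_iff, Cardinal.lift_mul, ← Cardinal.mk_Iio_ordinal,
    ← Cardinal.mk_Iio_ordinal, Cardinal.mul_def]
  choose i hi j hj hx using fun x : {x : ZFSet.{u} // x ∈ Z} => he x.1 x.2
  refine Cardinal.mk_le_of_injective (f := fun x => ((⟨i x, hi x⟩ : Iio l),
    (⟨j x, (hj x).trans (h2 _ (hi x))⟩ : Iio σ))) ?_
  intro x y hxy
  have h3 : i x = i y := congrArg (fun p => p.1.1) hxy
  have h4 : j x = j y := congrArg (fun p => p.2.1) hxy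
  exact Subtype.ext (by rw [hx x, hx y, h3, h4])

theorem pf_WSZ (h0 : T_PVA.{u}) (h1 : T_WZF.{u}) (h2 : T_SUB.{u}) : T_WSZ.{u} := by
  intro en hen K hK hK0 γ hγ hF l hl
  rcases hγ.le.lt_or_eq with hlt | heq
  · induction l using WellFoundedLT.induction with
    | ind l ih =>
      have h3 : ∀ i, ∃ (ν : Cardinal.{u}) (e : Ordinal.{u} → ZFSet.{u}), i < l →
          ν < K ∧ ∀ x, x ⊆ Wz γ i → PV γ x → ∃ j < ν.ord, x = e j := by
        intro i
        by_cases hi : i < l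
        · obtain ⟨ν, hν, e, he⟩ := h2 en hen K hK hK0 γ hγ hlt hF (Wz γ i) (h1.2.1 γ i)
            (fun s hs => nv_pv (by
              rw [Wz, ZFSet.mem_sep] at hs
              exact hs.2)) (ih i hi (hi.trans hl))
          exact ⟨ν, e, fun _ => ⟨hν, he⟩⟩
        · exact ⟨0, fun _ => ∅, fun h => absurd h hi⟩
      choose ν e h4 using h3
      refine union hK hl (ν := ν) (fun i hi => (h4 i hi).1) (e := e) fun x hx => ?_
      rw [Wz, ZFSet.mem_sep] at hx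
      refine ⟨x.rank, ZFSet.mem_vonNeumann.1 hx.1, ?_⟩
      refine (h4 _ (ZFSet.mem_vonNeumann.1 hx.1)).2 x (fun z hz => ?_) (nv_pv hx.2)
      rw [Wz, ZFSet.mem_sep]
      exact ⟨ZFSet.mem_vonNeumann.2 (ZFSet.rank_lt_of_mem hz), ZFSet.Hereditarily.mem hx.2 hz⟩
  · obtain ⟨ν, hν, e, he⟩ := hγ.few l (by rw [heq]; exact hl)
    refine ⟨ν, hν, e, fun x hx => he x ?_⟩
    rw [Wz, ZFSet.mem_sep] at hx
    exact hx.1

end Pool.Agent.H78.HV
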